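import Pool.Agent.Q72.AL.Stm

/-! DIFF for project AL (MP_f0209c_nt): the chain FE, LAT, EFP. -/

set_option autoImplicit false

open Complex MeasureTheory Filter Topology Set
open H345 (Zo aa XX)

namespace Pool.Agent.Q254.AL
open Pool.Agent.Q72.AL

theorem cs (Z : Finset ℝ) (T : ℝ) :
    ∑ t ∈ Z, ‖aa t‖ * Real.exp (-(2 * (t - T) ^ 2)) * (1 + (t - T) ^ 2) ≤
      Real.sqrt (N2 Z T) *
        Real.sqrt (∑ t ∈ Z, Real.exp (-(2 * (t - T) ^ 2)) * (1 + (t - T) ^ 2) ^ 2) := by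
  have h := Real.sum_mul_le_sqrt_mul_sqrt Z (fun t => ‖aa t‖ * Real.exp (-(t - T) ^ 2))
    (fun t => Real.exp (-(t - T) ^ 2) * (1 + (t - T) ^ 2))
  have key : ∀ t : ℝ, Real.exp (-(2 * (t - T) ^ 2)) =
      Real.exp (-(t - T) ^ 2) * Real.exp (-(t - T) ^ 2) := by
    intro t
    rw [← Real.exp_add]; congr 1; ring
  have e1 : ∑ t ∈ Z, ‖aa t‖ * Real.exp (-(2 * (t - T) ^ 2)) * (1 + (t - T) ^ 2) =
      ∑ t ∈ Z, (‖aa t‖ * Real.exp (-(t - T) ^ 2)) *
        (Real.exp (-(t - T) ^ 2) * (1 + (t - T) ^ 2)) := by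
    refine Finset.sum_congr rfl fun t _ => ?_
    rw [key]; ring
  have e2 : N2 Z T = ∑ t ∈ Z, (‖aa t‖ * Real.exp (-(t - T) ^ 2)) ^ 2 := by
    unfold N2
    refine Finset.sum_congr rfl fun t _ => ?_
    rw [key]; ring
  have e3 : ∑ t ∈ Z, Real.exp (-(2 * (t - T) ^ 2)) * (1 + (t - T) ^ 2) ^ 2 =
      ∑ t ∈ Z, (Real.exp (-(t - T) ^ 2) * (1 + (t - T) ^ 2)) ^ 2 := by
    refine Finset.sum_congr rfl fun t _ => ?_
    rw [key]; ring
  rw [e1, e2, e3]; exact h

theorem diff (h1 : J_FE) (h2 : J_LAT) (h3 : J_CNT) : J_DIFF := by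
  intro hRH a C0 hC0
  obtain ⟨C1, X1, hC1, H2⟩ := h2 hRH a
  obtain ⟨C2, T0, hC2, hT0, H1⟩ := h1
  obtain ⟨⟨C3, hC3, H3⟩, -⟩ := h3
  refine ⟨C1 + C2 * Real.sqrt C3, by positivity, ?_⟩
  intro c hc hc1
  set K : ℝ := 2 * Real.pi * Real.exp (2 * a) with hK
  have hKp : 0 < K := by positivity
  set M : ℝ := C0 * (2 + 1 / c + c / K) + 1 with hM
  have hMp : 0 < M := by positivity
  refine ⟨max X1 (max T0 (max (Real.exp 1) (max (M ^ 2) (max (Real.exp |Real.log c|)
    (Real.exp (|Real.log (K / c)| + 1)))))), ?_⟩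
  intro X δ hX hδ hδ1 hyp Z efp T hT1 hT2
  have hX1 : X1 ≤ X := le_trans (le_max_left _ _) hX
  have hX' := le_trans (le_max_right _ _) hX
  have hXT : T0 ≤ X := le_trans (le_max_left _ _) hX'
  have hX'' := le_trans (le_max_right _ _) hX'
  have hXe : Real.exp 1 ≤ X := le_trans (le_max_left _ _) hX''
  have hX3 := le_trans (le_max_right _ _) hX''
  have hXM : M ^ 2 ≤ X := le_trans (le_max_left _ _) hX3
  have hX4 := le_trans (le_max_right _ _) hX3
  have hXc : Real.exp |Real.log c| ≤ X := le_trans (le_max_left _ _) hX4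
  have hXK : Real.exp (|Real.log (K / c)| + 1) ≤ X := le_trans (le_max_right _ _) hX4
  have hXp : 0 < X := lt_of_lt_of_le (Real.exp_pos _) hXe
  have hTp : 0 < T := lt_of_lt_of_le hXp hT1
  have hL1 : 1 ≤ Real.log X := by rw [Real.le_log_iff_exp_le hXp]; exact hXe
  have hLc : |Real.log c| ≤ Real.log X := by rw [Real.le_log_iff_exp_le hXp]; exact hXc
  have hLK : |Real.log (K / c)| + 1 ≤ Real.log X := by
    rw [Real.le_log_iff_exp_le hXp]; exact hXK
  have hXone : 1 ≤ X := by linarith [Real.add_one_le_exp (1 : ℝ)]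
  set v : ℝ := Real.log (c * X) with hv
  have hv' : v = Real.log c + Real.log X := Real.log_mul hc.ne' hXp.ne'
  set w : ℝ := Real.log (K / c) + Real.log (T / X) with hw
  have hTX : Real.log (T / X) = Real.log T - Real.log X := Real.log_div hTp.ne' hXp.ne'
  have hw' : -v - Real.log (T / (2 * Real.pi)) + 2 * (Real.log T + a) = w := by
    rw [hw, hv', hTX, Real.log_div hTp.ne' (by positivity), Real.log_div hKp.ne' hc.ne', hK,
      Real.log_mul (by positivity) (Real.exp_pos _).ne', Real.log_exp]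
    ring
  have hTX0 : 0 ≤ Real.log (T / X) := Real.log_nonneg (by rw [le_div_iff₀ hXp]; linarith)
  have hTX1 : Real.log (T / X) ≤ 1 := by
    have : T / X ≤ 2 := by rw [div_le_iff₀ hXp]; linarith
    calc Real.log (T / X) ≤ Real.log 2 := Real.log_le_log (by positivity) this
      _ ≤ 1 := by linarith [Real.log_two_lt_d9]
  have hvb : |v| ≤ 3 * Real.log X := by
    rw [hv']
    calc |Real.log c + Real.log X| ≤ |Real.log c| + |Real.log X| := abs_add_le _ _
      _ ≤ 3 * Real.log X := by rw [abs_of_pos (by linarith : 0 < Real.log X)]; linarith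
  have hwb : |w| ≤ 3 * Real.log X := by
    calc |w| ≤ |Real.log (K / c)| + |Real.log (T / X)| := abs_add_le _ _
      _ ≤ 3 * Real.log X := by rw [abs_of_nonneg hTX0]; linarith
  have E1 := efp.ef 2 v T (by norm_num) (by norm_num) hT1 hT2 hvb
  have E2 := efp.ef 2 w T (by norm_num) (by norm_num) hT1 hT2 hwb
  have F1 := H1 T (le_trans hXT hT1) Z (fun t ht => (efp.sub t ht).1) 2 v
  have F2 := H2 X δ hX1 hδ hδ1 hyp Z efp.sub T (-v - Real.log (T / (2 * Real.pi))) hT1 hT2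
  rw [hw'] at F2
  have F3 := H3 (Real.log X) Z hL1 (fun t ht t' ht' htt =>
    hyp.spaced t (efp.sub t ht).1 t' (efp.sub t' ht').1
      (by have := (efp.sub t ht).2.1; linarith) htt
      (by have := (efp.sub t' ht').2.2; linarith)) T
  have hev : Real.exp (-v) ≤ 1 / c := by
    rw [Real.exp_neg, hv, Real.exp_log (by positivity), one_div]
    exact inv_anti₀ hc (by nlinarith)
  have hew : Real.exp (-w) ≤ c / K := by
    calc Real.exp (-w) ≤ Real.exp (-Real.log (K / c)) := Real.exp_le_exp.mpr (by linarith)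
      _ = c / K := by rw [Real.exp_neg, Real.exp_log (by positivity), inv_div]
  have hsum : C0 * (1 + Real.exp (-v)) / X + C0 * (1 + Real.exp (-w)) / X + 1 / X ≤
      1 / Real.sqrt X := by
    have hMX : M ≤ Real.sqrt X := Real.le_sqrt_of_sq_le hXM
    calc C0 * (1 + Real.exp (-v)) / X + C0 * (1 + Real.exp (-w)) / X + 1 / X
        = (C0 * (2 + Real.exp (-v) + Real.exp (-w)) + 1) / X := by ring
      _ ≤ M / X := by
          refine div_le_div_of_nonneg_right ?_ hXp.le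
          rw [hM]
          have := mul_le_mul_of_nonneg_left (by linarith :
            2 + Real.exp (-v) + Real.exp (-w) ≤ 2 + 1 / c + c / K) hC0.le
          linarith
      _ ≤ Real.sqrt X / X := div_le_div_of_nonneg_right hMX hXp.le
      _ = 1 / Real.sqrt X := Real.sqrt_div_self'
  have hN0 : 0 ≤ Real.sqrt (N2 Z T) := Real.sqrt_nonneg _
  have hF1 : C2 / T * ∑ t ∈ Z, ‖aa t‖ * Real.exp (-(2 * (t - T) ^ 2)) * (1 + (t - T) ^ 2) ≤
      C2 * Real.sqrt C3 * (Real.sqrt (Real.log X) / X) * Real.sqrt (N2 Z T) := by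
    have hcs := cs Z T
    have hsq : Real.sqrt (∑ t ∈ Z, Real.exp (-(2 * (t - T) ^ 2)) * (1 + (t - T) ^ 2) ^ 2) ≤
        Real.sqrt C3 * Real.sqrt (Real.log X) := by
      rw [← Real.sqrt_mul hC3.le]
      exact Real.sqrt_le_sqrt F3
    calc C2 / T * ∑ t ∈ Z, ‖aa t‖ * Real.exp (-(2 * (t - T) ^ 2)) * (1 + (t - T) ^ 2)
        ≤ C2 / T * (Real.sqrt (N2 Z T) * (Real.sqrt C3 * Real.sqrt (Real.log X))) := by
          refine mul_le_mul_of_nonneg_left ?_ (by positivity)
          exact hcs.trans (mul_le_mul_of_nonneg_left hsq hN0)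
      _ ≤ C2 / X * (Real.sqrt (N2 Z T) * (Real.sqrt C3 * Real.sqrt (Real.log X))) := by
          refine mul_le_mul_of_nonneg_right ?_ (by positivity)
          exact div_le_div_of_nonneg_left hC2.le hXp hT1
      _ = C2 * Real.sqrt C3 * (Real.sqrt (Real.log X) / X) * Real.sqrt (N2 Z T) := by ring
  have A1 := (abs_norm_sub_norm_le (DD 2 v T) (ZZ Z 2 v T)).trans E1
  have A2 := (abs_norm_sub_norm_le (DD 2 w T) (ZZ Z 2 w T)).trans E2
  have hfin : C1 * δ * Real.sqrt (N2 Z T) +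
      C2 * Real.sqrt C3 * (Real.sqrt (Real.log X) / X) * Real.sqrt (N2 Z T) ≤
      (C1 + C2 * Real.sqrt C3) * (δ + Real.sqrt (Real.log X) / X) * Real.sqrt (N2 Z T) := by
    have p1 : 0 ≤ C1 * (Real.sqrt (Real.log X) / X) * Real.sqrt (N2 Z T) := by positivity
    have p2 : 0 ≤ C2 * Real.sqrt C3 * δ * Real.sqrt (N2 Z T) := by positivity
    have p3 : (C1 + C2 * Real.sqrt C3) * (δ + Real.sqrt (Real.log X) / X) * Real.sqrt (N2 Z T) =
        C1 * δ * Real.sqrt (N2 Z T) +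
        C2 * Real.sqrt C3 * (Real.sqrt (Real.log X) / X) * Real.sqrt (N2 Z T) +
        (C1 * (Real.sqrt (Real.log X) / X) * Real.sqrt (N2 Z T) +
        C2 * Real.sqrt C3 * δ * Real.sqrt (N2 Z T)) := by ring
    rw [p3]
    exact le_add_of_nonneg_right (add_nonneg p1 p2)
  have G1 := F1.trans hF1
  rw [abs_le] at A1 A2 F2 G1 ⊢
  constructor <;> linarith [A1.1, A1.2, A2.1, A2.2, F2.1, F2.2, G1.1, G1.2]

end Pool.Agent.Q254.AL

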